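import Pool.Agent.H95.FH.Defs
import Pool.Agent.H12.FG.Quad

open MvPolynomial

namespace H66.FH
open H95.FG H95.FH

/-- scaling of the first group of variables -/
noncomputable def sc : Q3 →ₐ[ℂ] Polynomial Q3 :=
  aeval (Sum.elim (fun k => Polynomial.C (X (Sum.inl k)) * Polynomial.X)
    (fun k => Polynomial.C (X (Sum.inr k))))

theorem eval_sc (F : Q3) (z Y : Fin 3 → ℂ) (t : ℂ) :
    ((sc F).map (eval (Sum.elim z Y))).eval t = AA F (t • z) Y := by
  unfold AA
  have h : ((Polynomial.evalRingHom t).comp (Polynomial.mapRingHom (eval (Sum.elim z Y)))).comp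
      (sc : Q3 →ₐ[ℂ] Polynomial Q3).toRingHom = eval (Sum.elim (t • z) Y) := by
    apply MvPolynomial.ringHom_ext
    · intro r
      simp [sc]
    · intro i
      rcases i with i | i
      · simp [sc]
        ring
      · simp [sc]
  have := RingHom.congr_fun h F
  simpa using this

theorem sc_eq {F : Q3} {n : ℕ} (h : ∀ (c : ℂ) z Y, AA F (c • z) Y = c ^ n * AA F z Y) :
    sc F = Polynomial.C F * Polynomial.X ^ n := by
  ext1 k
  apply MvPolynomial.funext
  intro x
  have e : (Sum.elim (fun k => x (Sum.inl k)) (fun k => x (Sum.inr k))) = x := by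
    ext k
    rcases k with k | k <;> rfl
  have h1 : (sc F).map (eval x) = (Polynomial.C F * Polynomial.X ^ n).map (eval x) := by
    apply Polynomial.funext
    intro t
    rw [← e, eval_sc, h]
    simp only [Polynomial.map_mul, Polynomial.map_C, Polynomial.map_pow, Polynomial.map_X,
      Polynomial.eval_mul, Polynomial.eval_C, Polynomial.eval_pow, Polynomial.eval_X, AA]
    ring
  have h2 := congrArg (fun f => Polynomial.coeff f k) h1
  simpa only [Polynomial.coeff_map] using h2

/-- a factor of `A` which does not depend on `z` is a unit -/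
theorem unit_of_inr {m d : ℕ} {p : P3 m} {A : Q3} (hc : Ctx m d p A)
    (hc' : Ctx m d (cp p) (sw A)) {G : MvPolynomial (Fin 3) ℂ} (h : rename Sum.inr G ∣ A) :
    IsUnit G := by
  apply hc'.gcd
  intro j
  obtain ⟨Z, hZ⟩ := H12.FG.exists_points hc.sys.1
  obtain ⟨B, hB⟩ := h
  have hspan : (Pi.single j 1 : Fin m → ℂ) ∈ Submodule.span ℂ (Set.range fun i => ev p (Z i)) := by
    rw [hZ.span_eq_top_of_card_eq_finrank' (by simp)]
    trivial
  rw [Submodule.mem_span_range_iff_exists_fun] at hspan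
  obtain ⟨c, hcc⟩ := hspan
  let sub : (Fin 3 → ℂ) → (Q3 →ₐ[ℂ] MvPolynomial (Fin 3) ℂ) := fun z =>
    aeval (Sum.elim (fun k => C (z k)) X)
  have hsub : ∀ z, (∑ j, C (ev p z j) * cp p j) = (∑ k, C (z k) * X k) * (G * sub z B) := by
    intro z
    have h1 := congrArg (sub z) hc.sys.2
    rw [hB] at h1
    simp only [map_sum, map_mul, sub, aeval_rename, aeval_X, Sum.elim_inl, Sum.elim_inr] at h1
    have e1 : ∀ f : MvPolynomial (Fin 3) ℂ,
        aeval (Sum.elim (fun k => (C (z k) : MvPolynomial (Fin 3) ℂ)) X ∘ Sum.inl) f =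
          C (eval z f) := by
      intro f
      have : (Sum.elim (fun k => (C (z k) : MvPolynomial (Fin 3) ℂ)) X ∘ Sum.inl) =
        fun k => algebraMap ℂ (MvPolynomial (Fin 3) ℂ) (z k) := by
        funext k; rfl
      rw [this]
      have h5 := MvPolynomial.aeval_algebraMap_apply (MvPolynomial (Fin 3) ℂ) z f
      rw [show (fun k => algebraMap ℂ (MvPolynomial (Fin 3) ℂ) (z k)) =
        (algebraMap ℂ (MvPolynomial (Fin 3) ℂ)) ∘ z from rfl, h5]
      rfl
    have e2 : ∀ f : MvPolynomial (Fin 3) ℂ,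
        aeval (Sum.elim (fun k => (C (z k) : MvPolynomial (Fin 3) ℂ)) X ∘ Sum.inr) f = f := by
      intro f
      have : (Sum.elim (fun k => (C (z k) : MvPolynomial (Fin 3) ℂ)) X ∘ Sum.inr) = X := by
        funext k; rfl
      rw [this]
      exact aeval_X_left_apply f
    simp only [e1, e2] at h1
    exact h1
  have hj : cp p j = ∑ i, C (c i) * ∑ j', C (ev p (Z i) j') * cp p j' := by
    simp only [Finset.mul_sum]
    rw [Finset.sum_comm]
    have : ∀ j', ∑ i, C (c i) * (C (ev p (Z i) j') * cp p j') =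
        C ((∑ i, c i • ev p (Z i)) j') * cp p j' := by
      intro j'
      rw [Finset.sum_apply, map_sum, Finset.sum_mul]
      refine Finset.sum_congr rfl fun i _ => ?_
      simp [mul_assoc]
    simp only [this, hcc]
    rw [Finset.sum_eq_single j]
    · simp
    · intro b _ hb
      simp [Pi.single_eq_of_ne hb]
    · simp
  rw [hj]
  refine Finset.dvd_sum fun i _ => ?_
  rw [hsub]
  exact Dvd.dvd.mul_left (Dvd.dvd.mul_left (Dvd.intro _ rfl) _) _

theorem A_ne {m d : ℕ} {p : P3 m} {A : Q3} (hc : Ctx m d p A) : A ≠ 0 := by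
  intro h
  have key : ∀ z : Fin 3 → ℂ, ∀ j, eval z (p j) = 0 := by
    intro z
    have h1 := H12.FG.KK_eq_zero hc.sys z (cv z)
    rw [h] at h1
    unfold KK AA at h1
    simp only [H12.FG.eval_cj, map_zero, mul_zero, Complex.mul_conj] at h1
    have h2 : ∑ j, Complex.normSq (eval z (p j)) = 0 := by
      exact_mod_cast h1
    rw [Finset.sum_eq_zero_iff_of_nonneg fun j _ => Complex.normSq_nonneg _] at h2
    intro j
    exact Complex.normSq_eq_zero.1 (h2 j (Finset.mem_univ _))
  have h0 : p ⟨0, hc.hm1⟩ = 0 := MvPolynomial.funext fun z => by rw [key, map_zero]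
  exact hc.sys.1.ne_zero _ h0

/-- a polynomial of degree zero in `z` does not depend on `z` -/
theorem of_natDegree {F : Q3} (h : (sc F).natDegree = 0) :
    F = rename Sum.inr (aeval (Sum.elim (fun _ => (0 : MvPolynomial (Fin 3) ℂ)) X) F) := by
  apply MvPolynomial.funext
  intro x
  have e : (Sum.elim (fun k => x (Sum.inl k)) (fun k => x (Sum.inr k))) = x := by
    ext k
    rcases k with k | k <;> rfl
  have h1 : ∀ t, ((sc F).map (eval x)).eval t = ((sc F).map (eval x)).eval 0 := by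
    intro t
    rw [Polynomial.eq_C_of_natDegree_eq_zero h]
    simp
  have h2 := h1 1
  rw [← e, eval_sc, eval_sc, one_smul, zero_smul] at h2
  rw [eval_rename]
  have h3 : ∀ y : Fin 3 → ℂ,
      eval y (aeval (Sum.elim (fun _ => (0 : MvPolynomial (Fin 3) ℂ)) X) F) = AA F 0 y := by
    intro y
    unfold AA
    have hh : (eval y).comp (aeval (Sum.elim (fun _ => (0 : MvPolynomial (Fin 3) ℂ)) X) :
        Q3 →ₐ[ℂ] MvPolynomial (Fin 3) ℂ).toRingHom = eval (Sum.elim 0 y) := by
      apply MvPolynomial.ringHom_ext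
      · intro r
        simp
      · intro i
        rcases i with i | i <;> simp
    have := RingHom.congr_fun hh F
    simpa using this
  rw [h3]
  unfold AA at h2
  rw [e] at h2
  exact h2

/-- both factors are homogeneous of degree one in `z` -/
theorem hom_one {m : ℕ} {p : P3 m} {A A1 A2 : Q3} (hc : Ctx m 2 p A)
    (hc' : Ctx m 2 (cp p) (sw A)) (hh : ∀ (c : ℂ) z Y, AA A (c • z) Y = c ^ 2 * AA A z Y)
    (h : A = A1 * A2) (h1 : ¬ IsUnit A1) (h2 : ¬ IsUnit A2) :
    (∀ (c : ℂ) z Y, AA A1 (c • z) Y = c * AA A1 z Y) ∧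
      (∀ (c : ℂ) z Y, AA A2 (c • z) Y = c * AA A2 z Y) := by
  have hA := A_ne hc
  have hs := sc_eq hh
  have hm : sc A1 * sc A2 = Polynomial.C A * Polynomial.X ^ 2 := by
    rw [← hs, h, map_mul]
  have hCne : (Polynomial.C A * Polynomial.X ^ 2 : Polynomial Q3) ≠ 0 :=
    mul_ne_zero (Polynomial.C_ne_zero.2 hA) (pow_ne_zero _ Polynomial.X_ne_zero)
  have n1 : sc A1 ≠ 0 := fun h0 => hCne (by rw [← hm, h0, zero_mul])
  have n2 : sc A2 ≠ 0 := fun h0 => hCne (by rw [← hm, h0, mul_zero])
  have d12 : (sc A1).natDegree + (sc A2).natDegree = 2 := by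
    rw [← Polynomial.natDegree_mul n1 n2, hm]
    exact Polynomial.natDegree_C_mul_X_pow _ _ hA
  have t12 : (sc A1).natTrailingDegree + (sc A2).natTrailingDegree = 2 := by
    rw [← Polynomial.natTrailingDegree_mul n1 n2, hm, Polynomial.C_mul_X_pow_eq_monomial]
    exact Polynomial.natTrailingDegree_monomial hA
  have z1 : (sc A1).natDegree ≠ 0 := by
    intro h0
    apply h1
    rw [of_natDegree h0]
    refine (unit_of_inr hc hc' ?_).map (rename Sum.inr)
    rw [← of_natDegree h0, h]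
    exact Dvd.intro _ rfl
  have z2 : (sc A2).natDegree ≠ 0 := by
    intro h0
    apply h2
    rw [of_natDegree h0]
    refine (unit_of_inr hc hc' ?_).map (rename Sum.inr)
    rw [← of_natDegree h0, h]
    exact Dvd.intro_left _ rfl
  have l1 := Polynomial.natTrailingDegree_le_natDegree (sc A1)
  have l2 := Polynomial.natTrailingDegree_le_natDegree (sc A2)
  have gen : ∀ F : Q3, (sc F).natDegree = 1 → (sc F).natTrailingDegree = 1 →
      ∀ (c : ℂ) z Y, AA F (c • z) Y = c * AA F z Y := by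
    intro F hd ht c z Y
    have hF : sc F = Polynomial.C ((sc F).coeff 1) * Polynomial.X := by
      have h3 := Polynomial.eq_X_add_C_of_natDegree_le_one hd.le
      have h4 : (sc F).coeff 0 = 0 :=
        Polynomial.coeff_eq_zero_of_lt_natTrailingDegree (by omega)
      rw [h4, Polynomial.C_0, add_zero] at h3
      exact h3
    have h5 : ∀ t : ℂ, AA F (t • z) Y = t * eval (Sum.elim z Y) ((sc F).coeff 1) := by
      intro t
      rw [← eval_sc]
      conv_lhs => rw [hF]
      simp only [Polynomial.map_mul, Polynomial.map_C, Polynomial.map_X,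
        Polynomial.eval_mul, Polynomial.eval_C, Polynomial.eval_X]
      ring
    have h6 := h5 1
    rw [one_smul, one_mul] at h6
    rw [h5, h6]
  exact ⟨gen A1 (by omega) (by omega), gen A2 (by omega) (by omega)⟩

theorem eval_sw (F : Q3) (z Y : Fin 3 → ℂ) : AA (sw F) Y z = AA F z Y := by
  unfold AA sw
  rw [eval_rename]
  congr 2
  funext i
  rcases i with i | i <;> rfl

theorem bl_of {F : Q3} (h1 : ∀ (c : ℂ) z Y, AA F (c • z) Y = c * AA F z Y)
    (h2 : ∀ (c : ℂ) z Y, AA F z (c • Y) = c * AA F z Y) :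
    ∃ M : Matrix (Fin 3) (Fin 3) ℂ, ∀ z Y, AA F z Y = bl M z Y := by
  refine ⟨fun k l => AA F (Pi.single k 1) (Pi.single l 1), fun z Y => ?_⟩
  rw [H12.FG.lin_z (fun c z => h1 c z Y) z]
  unfold bl
  refine Finset.sum_congr rfl fun k _ => ?_
  rw [H12.FG.lin_Y (fun c Y => h2 c _ Y) Y, Finset.mul_sum]
  refine Finset.sum_congr rfl fun l _ => ?_
  ring

theorem rk2_of {m : ℕ} {p : P3 m} {A F B : Q3} (hc : Ctx m 2 p A)
    (hc' : Ctx m 2 (cp p) (sw A)) (h : A = F * B) {M : Matrix (Fin 3) (Fin 3) ℂ}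
    (hM : ∀ z Y, AA F z Y = bl M z Y) : Rk2 M := by
  intro a b
  by_contra hcon
  push Not at hcon
  have hF : F = (∑ k, C (a k) * X (Sum.inl k)) * rename Sum.inr (∑ k, C (b k) * X k) := by
    apply MvPolynomial.funext
    intro x
    have e : (Sum.elim (fun k => x (Sum.inl k)) (fun k => x (Sum.inr k))) = x := by
      ext k
      rcases k with k | k <;> rfl
    have h1 : eval x F = AA F (fun k => x (Sum.inl k)) (fun k => x (Sum.inr k)) := by
      unfold AA
      rw [e]
    rw [h1, hM, hcon]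
    simp only [dt, map_mul, map_sum, eval_C, eval_X, rename_C, rename_X]
    congr 1
    exact Finset.sum_congr rfl fun k _ => mul_comm _ _
  have hu : IsUnit (∑ k, C (b k) * X k : MvPolynomial (Fin 3) ℂ) := by
    apply unit_of_inr hc hc'
    rw [h, hF]
    exact Dvd.dvd.mul_right (Dvd.intro_left _ rfl) _
  have h0 := hu.map (eval (0 : Fin 3 → ℂ))
  simp at h0

/-- BIL -/
theorem t_BIL (hBAS : S_BAS) (hSWAP : S_SWAP) : S_BIL := by
  intro m p A hc ⟨A1, A2, h, h1, h2⟩
  have hc' := (hSWAP m 2 p A hc).1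
  have hc'' := (hSWAP m 2 _ _ hc').1
  have hb := hBAS m 2 p A hc
  have hb' := hBAS m 2 _ _ hc'
  have hu : ∀ F : Q3, ¬ IsUnit F → ¬ IsUnit (sw F) := by
    intro F hF hF'
    apply hF
    have := hF'.map (rename Sum.swap : Q3 →ₐ[ℂ] Q3)
    unfold sw at this
    rw [rename_rename] at this
    simpa using this
  obtain ⟨f1, f2⟩ := hom_one hc hc' hb.2.2.2.1 h h1 h2
  obtain ⟨g1, g2⟩ := hom_one (A1 := sw A1) (A2 := sw A2) hc' hc'' hb'.2.2.2.1
    (by rw [h]; exact map_mul _ _ _) (hu _ h1) (hu _ h2)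
  simp only [eval_sw] at g1 g2
  obtain ⟨M1, hM1⟩ := bl_of f1 fun c z Y => g1 c Y z
  obtain ⟨M2, hM2⟩ := bl_of f2 fun c z Y => g2 c Y z
  refine ⟨M1, M2, ?_, rk2_of hc hc' h hM1, rk2_of hc hc' (by rw [h, mul_comm]) hM2⟩
  intro z Y
  rw [← hM1, ← hM2, h]
  exact map_mul _ _ _

end H66.FH
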